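import Pool.Agent.H24.PN.Stmts

/-! Project PM, part 2, module CVC: covariance of the cosine window field. -/

set_option autoImplicit false

namespace PN
open MeasureTheory Complex ProbabilityTheory PM

/-- the fractional part of c / 2 ^ m -/
noncomputable def h8fr (m c : ℕ) : ℝ := ((c % 2 ^ m : ℕ) : ℝ) / 2 ^ m

/-- the unit vector at scale m -/
noncomputable def h8g (m c i : ℕ) : ℝ :=
  if i = c / 2 ^ m then Real.cos (Real.pi / 2 * h8fr m c)
  else if i = c / 2 ^ m + 1 then Real.sin (Real.pi / 2 * h8fr m c) else 0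

theorem h8fr_nonneg (m c : ℕ) : 0 ≤ h8fr m c := by unfold h8fr; positivity

theorem h8fr_lt (m c : ℕ) : h8fr m c < 1 := by
  unfold h8fr
  rw [div_lt_one (by positivity)]
  exact_mod_cast Nat.mod_lt c (by positivity)

theorem h8fr_add (m c : ℕ) : ((c / 2 ^ m : ℕ) : ℝ) + h8fr m c = (c : ℝ) / 2 ^ m := by
  unfold h8fr
  have h : (2 : ℝ) ^ m ≠ 0 := by positivity
  rw [eq_div_iff h, add_mul, div_mul_cancel₀ _ h]
  have := Nat.div_add_mod c (2 ^ m)
  rw [mul_comm] at this
  exact_mod_cast this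

theorem h8cos_nonneg (m c : ℕ) : 0 ≤ Real.cos (Real.pi / 2 * h8fr m c) := by
  have h0 := h8fr_nonneg m c
  have h1 := h8fr_lt m c
  have hp := Real.pi_pos
  apply Real.cos_nonneg_of_neg_pi_div_two_le_of_le
  · nlinarith
  · nlinarith

theorem h8sin_nonneg (m c : ℕ) : 0 ≤ Real.sin (Real.pi / 2 * h8fr m c) := by
  have h0 := h8fr_nonneg m c
  have h1 := h8fr_lt m c
  have hp := Real.pi_pos
  apply Real.sin_nonneg_of_nonneg_of_le_pi
  · positivity
  · nlinarith

theorem h8g_nonneg (m c i : ℕ) : 0 ≤ h8g m c i := by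
  unfold h8g
  split_ifs
  · exact h8cos_nonneg m c
  · exact h8sin_nonneg m c
  · exact le_rfl

theorem h8g_sq (m c N : ℕ) (h : c / 2 ^ m + 1 < N) :
    ∑ i ∈ Finset.range N, h8g m c i * h8g m c i = 1 := by
  rw [Finset.sum_eq_add (c / 2 ^ m) (c / 2 ^ m + 1) (by omega)]
  · simp only [h8g, if_true]
    rw [if_neg (by omega)]
    have := Real.cos_sq_add_sin_sq (Real.pi / 2 * h8fr m c)
    nlinarith
  · intro i _ hi
    simp only [h8g]
    rw [if_neg hi.1, if_neg hi.2]
    ring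
  · intro h'
    exact absurd (Finset.mem_range.2 (by omega)) h'
  · intro h'
    exact absurd (Finset.mem_range.2 h) h'

theorem h8cos_lb (s : ℝ) : 1 - 2 * s ^ 2 ≤ Real.cos (Real.pi / 2 * s) := by
  have h := Real.one_sub_sq_div_two_le_cos (x := Real.pi / 2 * s)
  have hp := Real.pi_le_four
  have hp0 := Real.pi_pos
  have h2 : (Real.pi / 2 * s) ^ 2 / 2 ≤ 2 * s ^ 2 := by
    have h3 : Real.pi ^ 2 ≤ 16 := by nlinarith
    have h4 : 0 ≤ s ^ 2 := sq_nonneg s
    nlinarith
  linarith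

/-- the case c <= c' -/
theorem h8g_ip1 (m c c' N : ℕ) (h : c / 2 ^ m + 1 < N) (h' : c' / 2 ^ m + 1 < N)
    (hcc : c ≤ c') (hd : c' ≤ c + 2 ^ m) :
    1 - 2 * (((c' : ℝ) - c) / 2 ^ m) ≤ ∑ i ∈ Finset.range N, h8g m c i * h8g m c' i := by
  have hM : 0 < 2 ^ m := by positivity
  have e1 := h8fr_add m c
  have e2 := h8fr_add m c'
  have f0 := h8fr_nonneg m c
  have f1 := h8fr_lt m c
  have g0 := h8fr_nonneg m c'
  have g1 := h8fr_lt m c'
  have hle : c / 2 ^ m ≤ c' / 2 ^ m := Nat.div_le_div_right hcc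
  have hle2 : c' / 2 ^ m ≤ c / 2 ^ m + 1 := by
    have : (c + 2 ^ m) / 2 ^ m = c / 2 ^ m + 1 := Nat.add_div_right c hM
    rw [← this]
    exact Nat.div_le_div_right hd
  have hdiff : ((c' : ℝ) - c) / 2 ^ m =
      ((c' / 2 ^ m : ℕ) : ℝ) - ((c / 2 ^ m : ℕ) : ℝ) + (h8fr m c' - h8fr m c) := by
    rw [sub_div]
    linarith
  have hnn : ∀ i ∈ Finset.range N, 0 ≤ h8g m c i * h8g m c' i :=
    fun i _ => mul_nonneg (h8g_nonneg m c i) (h8g_nonneg m c' i)
  rcases Nat.eq_or_lt_of_le hle with heq | hlt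
  · -- same cell
    have hsub : ({c / 2 ^ m, c / 2 ^ m + 1} : Finset ℕ) ⊆ Finset.range N := by
      intro i hi
      simp only [Finset.mem_insert, Finset.mem_singleton] at hi
      rw [Finset.mem_range]
      omega
    refine le_trans ?_ (Finset.sum_le_sum_of_subset_of_nonneg hsub fun i hi _ => hnn i hi)
    rw [Finset.sum_pair (by omega)]
    have k1 : h8g m c (c / 2 ^ m) = Real.cos (Real.pi / 2 * h8fr m c) := by
      unfold h8g; rw [if_pos rfl]
    have k2 : h8g m c (c / 2 ^ m + 1) = Real.sin (Real.pi / 2 * h8fr m c) := by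
      unfold h8g; rw [if_neg (by omega), if_pos rfl]
    have k3 : h8g m c' (c / 2 ^ m) = Real.cos (Real.pi / 2 * h8fr m c') := by
      unfold h8g; rw [if_pos heq]
    have k4 : h8g m c' (c / 2 ^ m + 1) = Real.sin (Real.pi / 2 * h8fr m c') := by
      unfold h8g; rw [if_neg (by omega), if_pos (by omega)]
    rw [k1, k2, k3, k4, ← Real.cos_sub, ← mul_sub]
    rw [← heq, sub_self, zero_add] at hdiff
    rw [hdiff]
    have h5 := h8cos_lb (h8fr m c - h8fr m c')
    have h6 : (0 : ℝ) ≤ h8fr m c' - h8fr m c := by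
      rw [← hdiff]
      have : (c : ℝ) ≤ c' := by exact_mod_cast hcc
      exact div_nonneg (by linarith) (by positivity)
    nlinarith
  · -- next cell
    have heq : c' / 2 ^ m = c / 2 ^ m + 1 := by omega
    have hsub : ({c / 2 ^ m + 1} : Finset ℕ) ⊆ Finset.range N := by
      intro i hi
      simp only [Finset.mem_singleton] at hi
      rw [Finset.mem_range]
      omega
    refine le_trans ?_ (Finset.sum_le_sum_of_subset_of_nonneg hsub fun i hi _ => hnn i hi)
    rw [Finset.sum_singleton]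
    have k2 : h8g m c (c / 2 ^ m + 1) = Real.sin (Real.pi / 2 * h8fr m c) := by
      unfold h8g; rw [if_neg (by omega), if_pos rfl]
    have k3 : h8g m c' (c / 2 ^ m + 1) = Real.cos (Real.pi / 2 * h8fr m c') := by
      unfold h8g; rw [if_pos heq.symm]
    rw [k2, k3]
    have k5 : Real.sin (Real.pi / 2 * h8fr m c) = Real.cos (Real.pi / 2 * (1 - h8fr m c)) := by
      rw [mul_sub, mul_one, Real.cos_pi_div_two_sub]
    rw [k5]
    have l1 := h8cos_lb (1 - h8fr m c)
    have l2 := h8cos_lb (h8fr m c')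
    have l3 := Real.cos_le_one (Real.pi / 2 * (1 - h8fr m c))
    have l4 := Real.cos_le_one (Real.pi / 2 * h8fr m c')
    rw [heq] at hdiff
    push_cast at hdiff
    have hdiff2 : ((c' : ℝ) - c) / 2 ^ m = (1 - h8fr m c) + h8fr m c' := by linarith
    rw [hdiff2]
    have l5 : (1 - h8fr m c) ^ 2 ≤ 1 - h8fr m c := by nlinarith
    have l6 : (h8fr m c') ^ 2 ≤ h8fr m c' := by nlinarith
    nlinarith [mul_nonneg (sub_nonneg.2 l3) (sub_nonneg.2 l4)]

theorem h8g_ip (m c c' N : ℕ) (h : c / 2 ^ m + 1 < N) (h' : c' / 2 ^ m + 1 < N) :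
    1 - min 1 (2 * (dl c c' / 2 ^ m)) ≤ ∑ i ∈ Finset.range N, h8g m c i * h8g m c' i := by
  have hnn : 0 ≤ ∑ i ∈ Finset.range N, h8g m c i * h8g m c' i :=
    Finset.sum_nonneg fun i _ => mul_nonneg (h8g_nonneg m c i) (h8g_nonneg m c' i)
  have hdl : |(c : ℝ) - c'| ≤ dl c c' := le_max_right _ _
  have hpos : (0 : ℝ) < 2 ^ m := by positivity
  rcases le_or_gt 1 (2 * (dl c c' / 2 ^ m)) with h1 | h1
  · rw [min_eq_left h1]
    linarith
  · rw [min_eq_right h1.le]
    have h2 : dl c c' < 2 ^ m := by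
      by_contra h3
      push Not at h3
      have : 1 ≤ dl c c' / 2 ^ m := by rwa [le_div_iff₀ hpos, one_mul]
      linarith
    have h3 : |(c : ℝ) - c'| / 2 ^ m ≤ dl c c' / 2 ^ m := div_le_div_of_nonneg_right hdl hpos.le
    rcases le_total c c' with hc | hc
    · have hc' : (c : ℝ) ≤ c' := by exact_mod_cast hc
      have h4 : |(c : ℝ) - c'| = c' - c := by
        rw [abs_sub_comm, abs_of_nonneg (by linarith)]
      have h5 : c' ≤ c + 2 ^ m := by
        have : (c' : ℝ) ≤ c + 2 ^ m := by linarith [hdl.trans h2.le]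
        exact_mod_cast this
      have := h8g_ip1 m c c' N h h' hc h5
      rw [h4] at h3
      linarith
    · have hc' : (c' : ℝ) ≤ c := by exact_mod_cast hc
      have h4 : |(c : ℝ) - c'| = c - c' := abs_of_nonneg (by linarith)
      have h5 : c ≤ c' + 2 ^ m := by
        have : (c : ℝ) ≤ c' + 2 ^ m := by linarith [hdl.trans h2.le]
        exact_mod_cast this
      have := h8g_ip1 m c' c N h' h hc h5
      rw [h4] at h3
      have h6 : ∑ i ∈ Finset.range N, h8g m c i * h8g m c' i =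
          ∑ i ∈ Finset.range N, h8g m c' i * h8g m c i :=
        Finset.sum_congr rfl fun i _ => mul_comm _ _
      rw [h6]
      linarith

/-- the sum of the defects -/
theorem h8_defect (d : ℝ) (hd : 1 ≤ d) (K : ℕ) :
    Real.log 2 * ∑ m ∈ Finset.range K, min 1 (2 * (d / 2 ^ (m + 1))) ≤ Real.log d + 3 := by
  set L := Nat.log 2 ⌊d⌋₊ with hL
  have hf : 1 ≤ ⌊d⌋₊ := Nat.le_floor (by exact_mod_cast hd)
  have h1 : (2 : ℝ) ^ L ≤ d := by
    have h2 : 2 ^ L ≤ ⌊d⌋₊ := Nat.pow_log_le_self 2 (by omega)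
    have h3 : ((⌊d⌋₊ : ℕ) : ℝ) ≤ d := Nat.floor_le (by linarith)
    have h4 : ((2 ^ L : ℕ) : ℝ) ≤ ((⌊d⌋₊ : ℕ) : ℝ) := by exact_mod_cast h2
    push_cast at h4
    linarith
  have h2 : d ≤ 2 ^ (L + 1) := by
    have h3 : ⌊d⌋₊ + 1 ≤ 2 ^ (L + 1) := Nat.lt_pow_succ_log_self (by norm_num) _
    have h4 := (Nat.lt_floor_add_one d).le
    have h5 : ((⌊d⌋₊ : ℕ) : ℝ) + 1 ≤ 2 ^ (L + 1) := by exact_mod_cast h3
    linarith
  have hA : ∀ K : ℕ, ∑ m ∈ Finset.range K, min 1 (2 * (d / 2 ^ (m + 1))) ≤ (K : ℝ) := by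
    intro K
    have : ∑ m ∈ Finset.range K, min 1 (2 * (d / 2 ^ (m + 1))) ≤
        ∑ m ∈ Finset.range K, (1 : ℝ) := Finset.sum_le_sum fun m _ => min_le_left _ _
    simpa using this
  have hB : ∀ j : ℕ, ∑ m ∈ Finset.range (L + 1 + j), min 1 (2 * (d / 2 ^ (m + 1))) +
      2 * (d / 2 ^ (L + 1 + j)) ≤ (L : ℝ) + 3 := by
    intro j
    induction j with
    | zero =>
      have h3 := hA (L + 1)
      have h4 : d / 2 ^ (L + 1) ≤ 1 := by rw [div_le_one (by positivity)]; exact h2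
      push_cast at h3
      simp only [add_zero]
      linarith
    | succ j ih =>
      rw [← add_assoc, Finset.sum_range_succ]
      have h3 := min_le_right 1 (2 * (d / 2 ^ (L + 1 + j + 1)))
      have h4 : d / 2 ^ (L + 1 + j) = 2 * (d / 2 ^ (L + 1 + j + 1)) := by
        rw [pow_succ (2 : ℝ) (L + 1 + j)]
        field_simp
      linarith
  have hC : ∑ m ∈ Finset.range K, min 1 (2 * (d / 2 ^ (m + 1))) ≤ (L : ℝ) + 3 := by
    rcases le_or_gt K (L + 1) with h3 | h3
    · have h4 := hA K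
      have h5 : (K : ℝ) ≤ L + 1 := by exact_mod_cast h3
      linarith
    · obtain ⟨j, rfl⟩ := Nat.exists_eq_add_of_lt h3
      have h4 := hB (j + 1)
      have h5 : 0 ≤ 2 * (d / 2 ^ (L + 1 + (j + 1))) := by positivity
      rw [show L + 1 + j + 1 = L + 1 + (j + 1) by ring]
      linarith
  have hl0 : 0 < Real.log 2 := Real.log_pos (by norm_num)
  have hl1 : Real.log 2 ≤ 1 := by
    have := Real.log_two_lt_d9
    linarith
  have hlog : (L : ℝ) * Real.log 2 ≤ Real.log d := by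
    rw [← Real.log_pow]
    exact Real.log_le_log (by positivity) h1
  calc Real.log 2 * ∑ m ∈ Finset.range K, min 1 (2 * (d / 2 ^ (m + 1))) ≤
      Real.log 2 * ((L : ℝ) + 3) := mul_le_mul_of_nonneg_left hC hl0.le
    _ ≤ Real.log d + 3 := by linarith

theorem h8_mCn (be : ℝ) (K c r i : ℕ) (hr : r < K) : mCn be K c r i = be * sv * h8g (K - r) c i := by
  unfold mCn h8g h8fr
  rw [if_pos hr]
  split_ifs
  · rfl
  · rfl
  · ring

theorem h8_svsv : sv * sv = vv := by
  unfold sv vv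
  exact Real.mul_self_sqrt (Real.log_nonneg (by norm_num))

theorem h8_inner (be : ℝ) (K B : ℕ) (i i' : Fin B × Fin (2 ^ K)) (h : i.1 = i'.1) :
    ∑ k, mC be K B i k * mC be K B i' k =
      be ^ 2 * (vv * ∑ r ∈ Finset.range K, ∑ j ∈ Finset.range (2 ^ K + 1),
        h8g (r + 1) i.2 j * h8g (r + 1) i'.2 j) := by
  rw [Fintype.sum_prod_type]
  rw [Finset.sum_eq_single i.1]
  · rw [Fintype.sum_prod_type]
    have h1 : ∀ r : Fin K, ∑ j : Fin (2 ^ K + 1), mC be K B i (i.1, r, j) *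
        mC be K B i' (i.1, r, j) = (fun r : ℕ => be ^ 2 * vv *
          ∑ j ∈ Finset.range (2 ^ K + 1), h8g (K - r) i.2 j * h8g (K - r) i'.2 j) (r : ℕ) := by
      intro r
      simp only
      rw [Finset.mul_sum, ← Fin.sum_univ_eq_sum_range
        (fun j => be ^ 2 * vv * (h8g (K - r) i.2 j * h8g (K - r) i'.2 j)) (2 ^ K + 1)]
      refine Finset.sum_congr rfl fun j _ => ?_
      unfold mC
      simp only
      rw [if_pos trivial, if_pos h, h8_mCn be K _ _ _ r.2, h8_mCn be K _ _ _ r.2, ← h8_svsv]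
      ring
    rw [Finset.sum_congr rfl fun r _ => h1 r]
    rw [Fin.sum_univ_eq_sum_range (fun r : ℕ => be ^ 2 * vv *
          ∑ j ∈ Finset.range (2 ^ K + 1), h8g (K - r) i.2 j * h8g (K - r) i'.2 j) K]
    rw [← Finset.mul_sum, mul_assoc]
    congr 2
    rw [← Finset.sum_range_reflect (fun r => ∑ j ∈ Finset.range (2 ^ K + 1),
        h8g (r + 1) i.2 j * h8g (r + 1) i'.2 j) K]
    refine Finset.sum_congr rfl fun r hr => ?_
    rw [Finset.mem_range] at hr
    rw [show K - 1 - r + 1 = K - r by omega]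
  · intro b _ hb
    refine Finset.sum_eq_zero fun k _ => ?_
    unfold mC
    simp only
    rw [if_neg hb]
    ring
  · intro h'
    exact absurd (Finset.mem_univ _) h'

theorem CVC : S_CVC := by
  refine ⟨3, by norm_num, fun be K B => ?_⟩
  have hvv : vv = Real.log 2 := rfl
  have hv0 : 0 < vv := by rw [hvv]; exact Real.log_pos (by norm_num)
  have hN : ∀ (c : Fin (2 ^ K)) (r : ℕ), r ∈ Finset.range K →
      (c : ℕ) / 2 ^ (r + 1) + 1 < 2 ^ K + 1 := by
    intro c r _
    have h1 : (c : ℕ) / 2 ^ (r + 1) ≤ c := Nat.div_le_self _ _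
    have h2 := c.2
    omega
  refine ⟨?_, ?_, ?_⟩
  · intro i i' h
    rw [h8_inner be K B i i' h]
    apply mul_le_mul_of_nonneg_left _ (sq_nonneg be)
    have h1 : ∑ r ∈ Finset.range K, (1 - min 1 (2 * (dl i.2 i'.2 / 2 ^ (r + 1)))) ≤
        ∑ r ∈ Finset.range K, ∑ j ∈ Finset.range (2 ^ K + 1),
        h8g (r + 1) i.2 j * h8g (r + 1) i'.2 j :=
      Finset.sum_le_sum fun r hr => h8g_ip (r + 1) i.2 i'.2 _ (hN i.2 r hr) (hN i'.2 r hr)
    rw [Finset.sum_sub_distrib] at h1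
    simp only [Finset.sum_const, Finset.card_range, nsmul_eq_mul, mul_one] at h1
    have h2 := h8_defect (dl i.2 i'.2) (le_max_left _ _) K
    have h3 := mul_le_mul_of_nonneg_left h1 hv0.le
    rw [← hvv] at h2
    linarith
  · intro i i'
    by_cases h : i.1 = i'.1
    · rw [h8_inner be K B i i' h]
      apply mul_nonneg (sq_nonneg be)
      apply mul_nonneg hv0.le
      exact Finset.sum_nonneg fun r _ => Finset.sum_nonneg fun j _ =>
        mul_nonneg (h8g_nonneg _ _ _) (h8g_nonneg _ _ _)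
    · apply le_of_eq
      symm
      refine Finset.sum_eq_zero fun k _ => ?_
      unfold mC
      by_cases h1 : k.1 = i.1
      · rw [if_neg (fun h2 => h (h1.symm.trans h2)), mul_zero]
      · rw [if_neg h1, zero_mul]
  · intro i
    have h1 := h8_inner be K B i i rfl
    have h2 : ∑ k, mC be K B i k ^ 2 = ∑ k, mC be K B i k * mC be K B i k :=
      Finset.sum_congr rfl fun k _ => sq _
    rw [h2, h1]
    congr 1
    rw [Finset.sum_congr rfl fun r hr => h8g_sq (r + 1) i.2 _ (hN i.2 r hr)]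
    simp only [Finset.sum_const, Finset.card_range, nsmul_eq_mul, mul_one]
    ring

end PN
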